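import Mathlib

/-!
# Domatic colourings of the hypercube

`Dom ι κ`: the cube `{0,1}^ι` has a colouring with colour set `κ` such that every closed ball of
radius one sees all the colours. The main result is that `{0,1}^n` has such a colouring with
`(1 - o(1)) n` colours (a colouring form of a theorem of Kabatyanskii and Panchenko).
-/

set_option autoImplicit false

open Finset

namespace Pool.Agent.H57.Domatic

/-- flip the coordinate `i` -/
def fl {ι : Type*} [DecidableEq ι] (x : ι → Bool) (i : ι) : ι → Bool :=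
  Function.update x i (!(x i))

lemma fl_self {ι : Type*} [DecidableEq ι] (x : ι → Bool) (i : ι) : fl x i i = !(x i) := by
  simp [fl]

lemma fl_of_ne {ι : Type*} [DecidableEq ι] (x : ι → Bool) {i j : ι} (h : j ≠ i) :
    fl x i j = x j := by
  simp [fl, h]

/-- a colouring of the cube such that every closed ball sees all the colours -/
def Dom (ι κ : Type) [DecidableEq ι] : Prop :=
  ∃ f : (ι → Bool) → κ, ∀ x c, c ≠ f x → ∃ i, f (fl x i) = c

lemma Dom.equiv {ι κ ι' κ' : Type} [DecidableEq ι] [DecidableEq ι'] (e : ι ≃ ι') (g : κ ≃ κ')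
    (h : Dom ι κ) : Dom ι' κ' := by
  obtain ⟨f, hf⟩ := h
  refine ⟨fun x => g (f (x ∘ e)), fun x c hc => ?_⟩
  obtain ⟨i, hi⟩ := hf (x ∘ e) (g.symm c) (by
    intro h
    apply hc
    change c = g (f (x ∘ e))
    rw [← h, Equiv.apply_symm_apply])
  refine ⟨e i, ?_⟩
  change g (f (fl x (e i) ∘ e)) = c
  have : fl x (e i) ∘ e = fl (x ∘ e) i := by
    funext j
    by_cases hj : j = i
    · subst hj; simp [fl]
    · simp [fl, hj]
  rw [this, hi, Equiv.apply_symm_apply]

lemma Dom.sum {ι κ ι' : Type} [DecidableEq ι] [DecidableEq ι'] (h : Dom ι κ) :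
    Dom (ι ⊕ ι') κ := by
  obtain ⟨f, hf⟩ := h
  refine ⟨fun x => f (fun i => x (Sum.inl i)), fun x c hc => ?_⟩
  obtain ⟨i, hi⟩ := hf _ c hc
  refine ⟨Sum.inl i, ?_⟩
  rw [← hi]
  change f (fun j => fl x (Sum.inl i) (Sum.inl j)) = f (fl (fun i => x (Sum.inl i)) i)
  congr 1
  funext j
  by_cases hj : j = i
  · subst hj; simp [fl]
  · simp [fl, hj]

lemma Dom.surj {ι κ κ' : Type} [DecidableEq ι] (h : Dom ι κ) (g : κ → κ')
    (hg : Function.Surjective g) : Dom ι κ' := by
  obtain ⟨f, hf⟩ := h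
  refine ⟨fun x => g (f x), fun x c hc => ?_⟩
  obtain ⟨d, rfl⟩ := hg c
  obtain ⟨i, hi⟩ := hf x d (by rintro rfl; exact hc rfl)
  exact ⟨i, by simp only [hi]⟩

/-- parity of the number of ones -/
def par {ι : Type} [Fintype ι] (x : ι → Bool) : ZMod 2 := ∑ i, if x i then 1 else 0

lemma par_fl {ι : Type} [Fintype ι] [DecidableEq ι] (x : ι → Bool) (i : ι) :
    par (fl x i) = par x + 1 := by
  unfold par
  rw [← Finset.add_sum_erase univ _ (Finset.mem_univ i),
    ← Finset.add_sum_erase univ (fun j => if x j then (1 : ZMod 2) else 0) (Finset.mem_univ i)]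
  have h1 : ∑ j ∈ univ.erase i, (if fl x i j then (1 : ZMod 2) else 0) =
      ∑ j ∈ univ.erase i, (if x j then (1 : ZMod 2) else 0) := by
    apply Finset.sum_congr rfl
    intro j hj
    rw [fl_of_ne _ (Finset.ne_of_mem_erase hj)]
  rw [h1, fl_self]
  have h2 : (1 : ZMod 2) + 1 = 0 := by decide
  cases x i
  · simp only [Bool.not_false, if_true, Bool.false_eq_true, if_false]
    ring
  · simp only [Bool.not_true, if_true, Bool.false_eq_true, if_false]
    linear_combination -h2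

lemma Dom.double {ι κ : Type} [DecidableEq ι] [Fintype ι] (h : Dom ι κ) :
    Dom (ι ⊕ (ι ⊕ Unit)) (κ × ZMod 2) := by
  obtain ⟨f, hf⟩ := h
  -- the first colour and the second colour
  let F1 : (ι ⊕ (ι ⊕ Unit) → Bool) → κ :=
    fun x => f (fun i => xor (x (Sum.inl i)) (x (Sum.inr (Sum.inl i))))
  let F2 : (ι ⊕ (ι ⊕ Unit) → Bool) → ZMod 2 :=
    fun x => par (fun i => x (Sum.inl i)) + par (fun u : Unit => x (Sum.inr (Sum.inr u)))
  have h1 : ∀ x i, F1 (fl x (Sum.inl i)) = f (fl (fun i => xor (x (Sum.inl i))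
      (x (Sum.inr (Sum.inl i)))) i) := by
    intro x i
    simp only [F1]
    congr 1
    funext j
    by_cases hj : j = i
    · subst hj; simp [fl]
    · simp [fl, hj]
  have h2 : ∀ x i, F1 (fl x (Sum.inr (Sum.inl i))) = f (fl (fun i => xor (x (Sum.inl i))
      (x (Sum.inr (Sum.inl i)))) i) := by
    intro x i
    simp only [F1]
    congr 1
    funext j
    by_cases hj : j = i
    · subst hj; simp [fl]
    · simp [fl, hj]
  have h3 : ∀ x u, F1 (fl x (Sum.inr (Sum.inr u))) = F1 x := by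
    intro x u
    simp only [F1]
    congr 1
  have h4 : ∀ x i, F2 (fl x (Sum.inl i)) = F2 x + 1 := by
    intro x i
    have e1 : (fun j => fl x (Sum.inl i) (Sum.inl j)) = fl (fun j => x (Sum.inl j)) i := by
      funext j
      by_cases hj : j = i
      · subst hj; simp [fl]
      · simp [fl, hj]
    have e2 : (fun u : Unit => fl x (Sum.inl i) (Sum.inr (Sum.inr u))) =
        fun u : Unit => x (Sum.inr (Sum.inr u)) := by
      funext u; simp [fl]
    simp only [F2]
    rw [e1, e2, par_fl]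
    ring
  have h5 : ∀ x i, F2 (fl x (Sum.inr (Sum.inl i))) = F2 x := by
    intro x i
    have e1 : (fun j => fl x (Sum.inr (Sum.inl i)) (Sum.inl j)) = (fun j => x (Sum.inl j)) := by
      funext j; simp [fl]
    have e2 : (fun u : Unit => fl x (Sum.inr (Sum.inl i)) (Sum.inr (Sum.inr u))) =
        fun u : Unit => x (Sum.inr (Sum.inr u)) := by
      funext u; simp [fl]
    simp only [F2]
    rw [e1, e2]
  have h6 : ∀ x u, F2 (fl x (Sum.inr (Sum.inr u))) = F2 x + 1 := by
    intro x u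
    have e1 : (fun j => fl x (Sum.inr (Sum.inr u)) (Sum.inl j)) = (fun j => x (Sum.inl j)) := by
      funext j; simp [fl]
    have e2 : (fun v : Unit => fl x (Sum.inr (Sum.inr u)) (Sum.inr (Sum.inr v))) =
        fl (fun v : Unit => x (Sum.inr (Sum.inr v))) u := by
      funext v
      by_cases hj : v = u
      · subst hj; simp [fl]
      · simp [fl, hj]
    simp only [F2]
    rw [e1, e2, par_fl]
    ring
  have hZ : ∀ a b : ZMod 2, b ≠ a → b = a + 1 := by decide
  refine ⟨fun x => (F1 x, F2 x), ?_⟩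
  rintro x ⟨c, d⟩ hc
  by_cases hd : d = F2 x
  · have hc' : c ≠ F1 x := by
      rintro rfl
      exact hc (by rw [hd])
    obtain ⟨i, hi⟩ := hf _ c hc'
    refine ⟨Sum.inr (Sum.inl i), ?_⟩
    change (F1 _, F2 _) = _
    rw [h2, h5, hi, hd]
  · have hd' := hZ _ _ hd
    by_cases hc' : c = F1 x
    · exact ⟨Sum.inr (Sum.inr ()), by change (F1 _, F2 _) = _; rw [h3, h6, hc', hd']⟩
    · obtain ⟨i, hi⟩ := hf _ c hc'
      refine ⟨Sum.inl i, ?_⟩
      change (F1 _, F2 _) = _
      rw [h1, h4, hi, hd']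

lemma Dom.field {ι K V : Type} [DecidableEq ι] [Field K] [AddCommGroup V] [Module K V]
    [Fintype (Projectivization K V)] [DecidableEq (Projectivization K V)] (h : Dom ι K) :
    Dom (Projectivization K V × ι) V := by
  obtain ⟨f, hf⟩ := h
  refine ⟨fun x => ∑ P : Projectivization K V, f (fun i => x (P, i)) • P.rep, fun x c hc => ?_⟩
  have hv : c - ∑ P : Projectivization K V, f (fun i => x (P, i)) • P.rep ≠ 0 :=
    sub_ne_zero.2 hc
  set v := c - ∑ P : Projectivization K V, f (fun i => x (P, i)) • P.rep with hvdef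
  obtain ⟨a, ha⟩ := Projectivization.exists_smul_eq_mk_rep K v hv
  set P := Projectivization.mk K v hv with hP
  -- `a • v = P.rep`
  have ha' : v = ((a⁻¹ : Kˣ) : K) • P.rep := by
    rw [← ha, Units.smul_def, smul_smul, ← Units.val_mul, inv_mul_cancel, Units.val_one, one_smul]
  obtain ⟨i, hi⟩ := hf (fun i => x (P, i)) (f (fun i => x (P, i)) + ((a⁻¹ : Kˣ) : K)) (by
    intro h
    rw [add_eq_left] at h
    exact (a⁻¹).ne_zero h)
  refine ⟨(P, i), ?_⟩
  have e1 : (fun j => fl x (P, i) (P, j)) = fl (fun j => x (P, j)) i := by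
    funext j
    by_cases hj : j = i
    · subst hj; simp [fl]
    · simp [fl, hj]
  have e2 : ∀ R : Projectivization K V, R ≠ P →
      (fun j => fl x (P, i) (R, j)) = (fun j => x (R, j)) := by
    intro R hR
    funext j
    simp [fl, hR]
  change ∑ R : Projectivization K V, f (fun j => fl x (P, i) (R, j)) • R.rep = c
  rw [← Finset.add_sum_erase univ _ (Finset.mem_univ P)]
  have e3 : ∑ R ∈ univ.erase P, f (fun j => fl x (P, i) (R, j)) • R.rep =
      ∑ R ∈ univ.erase P, f (fun j => x (R, j)) • R.rep := by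
    apply Finset.sum_congr rfl
    intro R hR
    rw [e2 R (Finset.ne_of_mem_erase hR)]
  rw [e3, e1, hi, add_smul, ← ha']
  have e4 := Finset.add_sum_erase univ
    (fun R : Projectivization K V => f (fun j => x (R, j)) • R.rep) (Finset.mem_univ P)
  rw [hvdef, ← e4]
  abel

/-- numerical version -/
def D (n k : ℕ) : Prop := Dom (Fin n) (Fin k)

lemma D_of {ι κ : Type} [DecidableEq ι] [Fintype ι] [Fintype κ] (h : Dom ι κ) {n k : ℕ}
    (hn : Fintype.card ι = n) (hk : Fintype.card κ = k) : D n k := by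
  subst hn; subst hk
  exact h.equiv (Fintype.equivFin ι) (Fintype.equivFin κ)

lemma D_zero : D 0 1 := ⟨fun _ => 0, fun x c hc => (hc (Subsingleton.elim _ _)).elim⟩

lemma D_left {n m k : ℕ} (h : D n k) (hm : n ≤ m) : D m k := by
  obtain ⟨l, rfl⟩ := Nat.exists_eq_add_of_le hm
  exact D_of (Dom.sum (ι' := Fin l) h) (by simp) (by simp)

lemma D_right {n k l : ℕ} (h : D n k) (hl : 0 < l) (hlk : l ≤ k) : D n l := by
  haveI : NeZero l := ⟨hl.ne'⟩
  refine Dom.surj h (fun c => if hc : (c : ℕ) < l then ⟨c, hc⟩ else 0) ?_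
  intro c
  refine ⟨⟨c, lt_of_lt_of_le c.2 hlk⟩, ?_⟩
  simp

lemma D_double {n k : ℕ} (h : D n k) : D (2 * n + 1) (2 * k) :=
  D_of (Dom.double h) (by simp; ring) (by simp [ZMod.card]; ring)

lemma D_pow {n k : ℕ} (h : D n k) (j : ℕ) : D (2 ^ j * (n + 1) - 1) (2 ^ j * k) := by
  induction j with
  | zero => simpa using h
  | succ j ih =>
    have h1 := D_double ih
    have h2 : 1 ≤ 2 ^ j * (n + 1) := Nat.one_le_iff_ne_zero.2 (by positivity)
    have e1 : 2 * (2 ^ j * (n + 1) - 1) + 1 = 2 ^ (j + 1) * (n + 1) - 1 := by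
      rw [pow_succ]
      have : 2 ^ j * 2 * (n + 1) = 2 * (2 ^ j * (n + 1)) := by ring
      rw [this]
      omega
    have e2 : 2 * (2 ^ j * k) = 2 ^ (j + 1) * k := by ring
    rw [e1, e2] at h1
    exact h1

lemma D_hamming (a : ℕ) : D (2 ^ a - 1) (2 ^ a) := by
  have := D_pow D_zero a
  simpa using this

/-- the projective step over the field with `3 ^ b` elements -/
lemma D_field {s b : ℕ} (hb : b ≠ 0) (h : D s (3 ^ b)) (r : ℕ) :
    ∃ t : ℕ, t * (3 ^ b - 1) = (3 ^ b) ^ r - 1 ∧ D (t * s) ((3 ^ b) ^ r) := by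
  classical
  haveI : Fact (Nat.Prime 3) := ⟨Nat.prime_three⟩
  let K := GaloisField 3 b
  haveI : Fintype K := Fintype.ofFinite K
  have hK : Fintype.card K = 3 ^ b := by
    rw [← Nat.card_eq_fintype_card]; exact GaloisField.card 3 b hb
  let V := Fin r → K
  haveI : Fintype V := Fintype.ofFinite _
  have hV : Fintype.card V = (3 ^ b) ^ r := by
    rw [← Nat.card_eq_fintype_card]
    change Nat.card (Fin r → K) = _
    rw [Nat.card_fun, Nat.card_eq_fintype_card, hK, Nat.card_eq_fintype_card, Fintype.card_fin]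
  haveI : Finite (Projectivization K V) := inferInstance
  haveI : Fintype (Projectivization K V) := Fintype.ofFinite _
  have hDom : Dom (Fin s) K := by
    refine Dom.equiv (Equiv.refl _) ?_ h
    exact Fintype.equivOfCardEq (by rw [hK]; simp)
  have h1 : Dom (Projectivization K V × Fin s) V := Dom.field hDom
  refine ⟨Fintype.card (Projectivization K V), ?_, ?_⟩
  · have h2 := Projectivization.card' (k := K) (V := V)
    rw [Nat.card_eq_fintype_card, Nat.card_eq_fintype_card, Nat.card_eq_fintype_card, hK, hV] at h2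
    omega
  · exact D_of h1 (by simp) hV

/-! ### Powers of three just below powers of two -/

lemma pow_ne {a b : ℕ} (hb : b ≠ 0) : (3 : ℝ) ^ b ≠ 2 ^ a := by
  intro h
  have h1 : (3 : ℕ) ^ b = 2 ^ a := by exact_mod_cast h
  rcases Nat.eq_zero_or_pos a with rfl | ha
  · rw [pow_zero, Nat.pow_eq_one] at h1
    omega
  · have h2 : Odd (3 ^ b) := Odd.pow (by decide)
    rw [h1] at h2
    exact (Nat.not_odd_iff_even.2 ((Nat.even_pow.2 ⟨even_two, ha.ne'⟩))) h2

lemma irr : Irrational (Real.log 2 / Real.log 3) := by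
  have h2 : 0 < Real.log 2 := Real.log_pos (by norm_num)
  have h3 : 0 < Real.log 3 := Real.log_pos (by norm_num)
  rintro ⟨q, hq⟩
  have hq0 : 0 < (q : ℝ) := by rw [hq]; positivity
  have hq1 : 0 < q := by exact_mod_cast hq0
  have hnum : 0 < q.num := Rat.num_pos.2 hq1
  obtain ⟨m, hm⟩ : ∃ m : ℕ, q.num = m := Int.eq_ofNat_of_zero_le hnum.le
  have h4 : (q : ℝ) = (m : ℝ) / q.den := by
    rw [Rat.cast_def, hm]; simp
  rw [h4, div_eq_div_iff (by exact_mod_cast q.den_nz) h3.ne'] at hq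
  have h5 : Real.log ((3 : ℝ) ^ m) = Real.log (2 ^ q.den) := by
    rw [Real.log_pow, Real.log_pow]; linarith
  have h6 : (3 : ℝ) ^ m = 2 ^ q.den :=
    Real.log_injOn_pos (Set.mem_Ioi.2 (by positivity)) (Set.mem_Ioi.2 (by positivity)) h5
  refine pow_ne ?_ h6
  rintro rfl
  rw [hm] at hnum
  simp at hnum

lemma exists_pow_close' {δ : ℝ} (hδ : 0 < δ) (hδ1 : δ ≤ 1) :
    ∃ a b : ℕ, b ≠ 0 ∧ (3 : ℝ) ^ b < 2 ^ a ∧ (2 : ℝ) ^ a ≤ (1 + δ) * 3 ^ b := by
  have h2 : 0 < Real.log 2 := Real.log_pos (by norm_num)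
  have h3 : 0 < Real.log 3 := Real.log_pos (by norm_num)
  have hlog : 0 < Real.log (1 + δ) := Real.log_pos (by linarith)
  have hlog2 : Real.log (1 + δ) ≤ Real.log 2 := Real.log_le_log (by linarith) (by linarith)
  have hd := dense_addSubgroupClosure_pair_iff.2 irr
  obtain ⟨x, hx, hx0, hx1⟩ := hd.exists_between hlog
  rw [SetLike.mem_coe, AddSubgroup.mem_closure_pair] at hx
  obtain ⟨m, n, rfl⟩ := hx
  rw [zsmul_eq_mul, zsmul_eq_mul] at hx0 hx1
  rcases le_or_gt 0 n with hn | hn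
  · -- three to a power over two to a power
    have hm : m < 0 := by
      by_contra hm
      push Not at hm
      have hm' : (0 : ℝ) ≤ m := by exact_mod_cast hm
      have hn' : (0 : ℝ) ≤ n := by exact_mod_cast hn
      rcases eq_or_lt_of_le hm with h | h
      · rcases eq_or_lt_of_le hn with h' | h'
        · rw [← h, ← h'] at hx0; simp at hx0
        · have : (1 : ℝ) ≤ n := by exact_mod_cast h'
          have h23 : Real.log 2 ≤ Real.log 3 := Real.log_le_log (by norm_num) (by norm_num)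
          nlinarith
      · have : (1 : ℝ) ≤ m := by exact_mod_cast h
        nlinarith
    obtain ⟨u, hu⟩ : ∃ u : ℕ, m = -u := ⟨m.natAbs, by omega⟩
    obtain ⟨v, hv⟩ : ∃ v : ℕ, n = v := ⟨n.natAbs, by omega⟩
    subst hu; subst hv
    push_cast at hx0 hx1
    have hv0 : v ≠ 0 := by
      rintro rfl
      have : (0 : ℝ) ≤ u := by positivity
      simp at hx0
      nlinarith
    -- the ratio
    set θ : ℝ := 3 ^ v / 2 ^ u with hθ
    have hθ1 : 1 < θ := by
      rw [hθ, one_lt_div (by positivity), ← Real.log_lt_log_iff (by positivity) (by positivity),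
        Real.log_pow, Real.log_pow]
      linarith
    have hθ2 : θ ≤ 1 + δ := by
      rw [hθ, div_le_iff₀ (by positivity), ← Real.log_le_log_iff (by positivity) (by positivity),
        Real.log_mul (by positivity) (by positivity), Real.log_pow, Real.log_pow]
      linarith
    obtain ⟨k, hk1, hk2⟩ := exists_nat_pow_near (x := (2 : ℝ)) (y := θ) (by norm_num) hθ1
    have hk0 : k ≠ 0 := by
      rintro rfl
      rw [zero_add, pow_one] at hk2
      linarith
    refine ⟨u * k + 1, v * k, Nat.mul_ne_zero hv0 hk0, ?_, ?_⟩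
    · refine lt_of_le_of_ne ?_ (pow_ne (Nat.mul_ne_zero hv0 hk0))
      rw [hθ, div_pow, div_le_iff₀ (by positivity), ← pow_mul, ← pow_mul] at hk1
      rw [pow_succ]; linarith
    · have h8 : 2 < θ ^ k * (1 + δ) := by
        refine lt_of_lt_of_le hk2 ?_
        rw [pow_succ]
        have : 0 < θ ^ k := by positivity
        nlinarith
      have h9 : θ ^ k = 3 ^ (v * k) / 2 ^ (u * k) := by
        rw [hθ, div_pow, ← pow_mul, ← pow_mul]
      rw [h9, div_mul_eq_mul_div, lt_div_iff₀ (by positivity)] at h8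
      rw [pow_succ]
      linarith
  · have hm : 0 < m := by
      by_contra hm
      push Not at hm
      have hm' : (m : ℝ) ≤ 0 := by exact_mod_cast hm
      have hn' : (n : ℝ) < 0 := by exact_mod_cast hn
      nlinarith
    obtain ⟨u, hu⟩ : ∃ u : ℕ, m = u := ⟨m.natAbs, by omega⟩
    obtain ⟨v, hv⟩ : ∃ v : ℕ, n = -v := ⟨n.natAbs, by omega⟩
    subst hu; subst hv
    push_cast at hx0 hx1
    refine ⟨u, v, by omega, ?_, ?_⟩
    · rw [← Real.log_lt_log_iff (by positivity) (by positivity), Real.log_pow, Real.log_pow]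
      linarith
    · rw [← Real.log_le_log_iff (by positivity) (by positivity),
        Real.log_mul (by positivity) (by positivity), Real.log_pow, Real.log_pow]
      linarith

lemma exists_pow_close {δ : ℝ} (hδ : 0 < δ) :
    ∃ a b : ℕ, b ≠ 0 ∧ (3 : ℝ) ^ b < 2 ^ a ∧ (2 : ℝ) ^ a ≤ (1 + δ) * 3 ^ b := by
  obtain ⟨a, b, h1, h2, h3⟩ := exists_pow_close' (δ := min δ 1) (by positivity) (min_le_right _ _)
  refine ⟨a, b, h1, h2, h3.trans ?_⟩
  have : min δ 1 ≤ δ := min_le_left _ _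
  have h4 : (0 : ℝ) < 3 ^ b := by positivity
  nlinarith

/-- the set of the numbers `2 ^ j * q ^ r` is eventually `(1 + δ)`-dense -/
lemma exists_between {δ : ℝ} {a b : ℕ} (h1 : (3 : ℝ) ^ b < 2 ^ a)
    (h2 : (2 : ℝ) ^ a ≤ (1 + δ) * 3 ^ b) :
    ∃ Y : ℝ, ∀ y : ℝ, Y ≤ y → ∃ j r : ℕ, (2 : ℝ) ^ j * (3 ^ b) ^ r ≤ y ∧
      y ≤ (1 + δ) * (2 ^ j * (3 ^ b) ^ r) := by
  have h3 : (1 : ℝ) < 2 ^ a / 3 ^ b := by rwa [one_lt_div (by positivity)]
  obtain ⟨R, hR⟩ := pow_unbounded_of_one_lt (2 : ℝ) h3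
  refine ⟨2 ^ (a * R), fun y hy => ?_⟩
  have hy1 : 1 ≤ y := le_trans (one_le_pow₀ (by norm_num)) hy
  obtain ⟨J, hJ1, hJ2⟩ := exists_nat_pow_near (x := y) (y := (2 : ℝ)) hy1 (by norm_num)
  -- `2 ^ J ≤ y < 2 ^ (J + 1)`
  have hJR : a * R ≤ J := by
    by_contra hc
    push Not at hc
    have : (2 : ℝ) ^ (J + 1) ≤ 2 ^ (a * R) := pow_le_pow_right₀ (by norm_num) hc
    linarith
  let u : ℕ → ℝ := fun r => 2 ^ (J + 1 - a * r) * (3 ^ b) ^ r
  have huR : u R ≤ y := by
    have e1 : J + 1 = (J + 1 - a * R) + a * R := by omega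
    have e2 : u R * (2 ^ a / 3 ^ b) ^ R = 2 ^ (J + 1) := by
      simp only [u]
      rw [div_pow, e1, pow_add, pow_mul]
      field_simp
      simp
    have e3 : (0 : ℝ) < u R := by simp only [u]; positivity
    have e4 : u R * 2 ≤ 2 ^ (J + 1) := by
      rw [← e2]
      gcongr
    have e5 : (2 : ℝ) ^ (J + 1) = 2 * 2 ^ J := by ring
    linarith
  have hex : ∃ r, u r ≤ y := ⟨R, huR⟩
  classical
  let r := Nat.find hex
  have hr1 : u r ≤ y := Nat.find_spec hex
  have hrR : r ≤ R := Nat.find_min' hex huR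
  have hr0 : r ≠ 0 := by
    intro h0
    rw [h0] at hr1
    simp only [u, mul_zero, Nat.sub_zero, pow_zero, mul_one] at hr1
    linarith
  obtain ⟨s, hs⟩ := Nat.exists_eq_succ_of_ne_zero hr0
  have hs1 : ¬ u s ≤ y := Nat.find_min hex (by omega)
  refine ⟨J + 1 - a * r, r, hr1, ?_⟩
  push Not at hs1
  refine hs1.le.trans ?_
  have hars : a * r ≤ J := le_trans (Nat.mul_le_mul_left a hrR) hJR
  have e6 : J + 1 - a * s = (J + 1 - a * r) + a := by
    have : a * r = a * s + a := by rw [hs, Nat.succ_eq_add_one]; ring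
    omega
  simp only [u]
  rw [e6, hs, pow_add, Nat.succ_eq_add_one, pow_succ]
  have e7 : (0 : ℝ) < 2 ^ (J + 1 - a * (s + 1)) := by positivity
  have e8 : (0 : ℝ) < (3 ^ b) ^ s := by positivity
  calc (2 : ℝ) ^ (J + 1 - a * (s + 1)) * 2 ^ a * (3 ^ b) ^ s
      ≤ 2 ^ (J + 1 - a * (s + 1)) * ((1 + δ) * 3 ^ b) * (3 ^ b) ^ s := by gcongr
    _ = _ := by ring

theorem asymp {ε : ℝ} (hε : 0 < ε) :
    ∃ n₀ : ℕ, ∀ n ≥ n₀, ∃ k : ℕ, 0 < k ∧ D n k ∧ (n : ℝ) ≤ (1 + ε) * k := by
  -- choose `δ` with `(1 + δ) * (1 + 3 * δ) ≤ 1 + ε`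
  obtain ⟨δ, hδ0, hδ1⟩ : ∃ δ : ℝ, 0 < δ ∧ (1 + δ) * (1 + 2 * δ) ≤ 1 + ε := by
    refine ⟨min 1 (ε / 5), by positivity, ?_⟩
    have h1 : min 1 (ε / 5) ≤ 1 := min_le_left _ _
    have h2 : min 1 (ε / 5) ≤ ε / 5 := min_le_right _ _
    have h3 : 0 < min 1 (ε / 5) := by positivity
    nlinarith
  obtain ⟨a, b, hb, hab, hab'⟩ := exists_pow_close hδ0
  obtain ⟨Y, hY⟩ := exists_between hab hab'
  set q : ℕ := 3 ^ b with hq
  have hq3 : 3 ≤ q := by
    rw [hq]
    calc 3 = 3 ^ 1 := by norm_num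
      _ ≤ 3 ^ b := Nat.pow_le_pow_right (by norm_num) (Nat.one_le_iff_ne_zero.2 hb)
  have hqr : ((q : ℕ) : ℝ) = 3 ^ b := by rw [hq]; push_cast; ring
  have hq3' : (3 : ℝ) ≤ q := by exact_mod_cast hq3
  have habN : 3 ^ b < 2 ^ a := by exact_mod_cast hab
  have hD0 : D (2 ^ a - 1) q := D_right (D_hamming a) (by omega) habN.le
  -- the constant `ρ`
  set ρ : ℝ := (2 ^ a - 1) / (q - 1) with hρ
  have hρ1 : 1 ≤ ρ := by
    rw [hρ, one_le_div (by linarith)]
    rw [hqr]; linarith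
  have hρ2 : ρ ≤ 1 + 2 * δ := by
    rw [hρ, div_le_iff₀ (by linarith)]
    rw [← hqr] at hab'
    nlinarith
  obtain ⟨n₀, hn₀⟩ := exists_nat_ge (ρ * Y)
  refine ⟨n₀, fun n hn => ?_⟩
  have hn' : ρ * Y ≤ n + 1 := by
    have : (n₀ : ℝ) ≤ n := by exact_mod_cast hn
    linarith
  obtain ⟨j, r, h1, h2⟩ := hY ((n + 1) / ρ) (by
    rw [le_div_iff₀ (by linarith)]; linarith)
  rw [← hqr] at h1 h2
  rw [le_div_iff₀ (by linarith)] at h1
  rw [div_le_iff₀ (by linarith)] at h2
  obtain ⟨t, ht, hDt⟩ := D_field hb hD0 r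
  rw [← hq] at ht hDt
  have h3 := D_pow hDt j
  refine ⟨2 ^ j * q ^ r, by positivity, D_left h3 ?_, ?_⟩
  · -- size
    have h4 : (t : ℝ) * (q - 1) = q ^ r - 1 := by
      have h5 : 1 ≤ q ^ r := Nat.one_le_pow _ _ (by omega)
      have h6 : 1 ≤ q := by omega
      have : ((t * (q - 1) : ℕ) : ℝ) = ((q ^ r - 1 : ℕ) : ℝ) := by exact_mod_cast ht
      rw [Nat.cast_mul, Nat.cast_sub h6, Nat.cast_sub h5] at this
      push_cast at this
      exact this
    have h5 : ((t * (2 ^ a - 1) + 1 : ℕ) : ℝ) ≤ ρ * q ^ r := by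
      have h6 : 1 ≤ 2 ^ a := Nat.one_le_two_pow
      push_cast [Nat.cast_sub h6]
      have h7 : ρ * (q - 1) = 2 ^ a - 1 := by
        rw [hρ]
        exact div_mul_cancel₀ _ (by linarith)
      have h8 : (q : ℝ) ^ r = t * (q - 1) + 1 := by linarith
      rw [h8, ← h7]
      nlinarith
    have h9 : ((2 ^ j * (t * (2 ^ a - 1) + 1) : ℕ) : ℝ) ≤ ((n + 1 : ℕ) : ℝ) := by
      rw [Nat.cast_mul]
      push_cast
      push_cast at h5
      have : (0 : ℝ) < 2 ^ j := by positivity
      nlinarith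
    have h10 : 2 ^ j * (t * (2 ^ a - 1) + 1) ≤ n + 1 := by exact_mod_cast h9
    omega
  · push_cast
    have h11 : (0 : ℝ) < 2 ^ j * q ^ r := by positivity
    calc (n : ℝ) ≤ (1 + δ) * (2 ^ j * q ^ r) * ρ := by linarith
      _ ≤ (1 + δ) * (2 ^ j * q ^ r) * (1 + 2 * δ) := by gcongr
      _ = (1 + δ) * (1 + 2 * δ) * (2 ^ j * q ^ r) := by ring
      _ ≤ (1 + ε) * (2 ^ j * q ^ r) := by gcongr

end Pool.Agent.H57.Domatic
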